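import Pool.Agent.H17.AH.TargetsC
import Pool.Agent.H27.LV.Gen

/-!
# MP_70ba79_ag: board ahy_modules, ALH

The algebraic theorem for a hypersurface which is transversal to a hyperplane: reduction to the
plane (as in `Pool/Agent/H11/BO/ALG.lean`).
-/

set_option autoImplicit false

namespace Pool.Agent.H19.AH.ALH

open MvPolynomial SC Pool.Agent.H27.LV Pool.Agent.H17.VG Pool.Agent.H17.BO Pool.Agent.H17.AH

variable {k L : Type} [Field k] [Field L] [Algebra k L] {n : ℕ}

/-- the restriction to the plane -/
noncomputable def phi (P : Fin (n + 1) → Fin 3 → k) (j : Fin (n + 1)) :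
    MvPolynomial (Fin 3) k := ∑ t, C (P j t) * X t

lemma phi_homog (P : Fin (n + 1) → Fin 3 → k) (j : Fin (n + 1)) :
    (phi P j).IsHomogeneous 1 := by
  unfold phi
  refine IsHomogeneous.sum _ _ _ fun t _ => ?_
  have := (isHomogeneous_C (Fin 3) (P j t)).mul (isHomogeneous_X k t)
  simpa using this

lemma aeval_phi_homog (P : Fin (n + 1) → Fin 3 → k) {d : ℕ}
    {G : MvPolynomial (Fin (n + 1)) k} (hG : G.IsHomogeneous d) :
    (aeval (phi P) G).IsHomogeneous d := by
  have := hG.aeval (phi P) (phi_homog P)
  simpa using this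

lemma eval_aeval_phi (P : Fin (n + 1) → Fin 3 → k) (z : Fin 3 → k)
    (G : MvPolynomial (Fin (n + 1)) k) :
    eval z (aeval (phi P) G) = eval (fun j => ∑ t, P j t * z t) G := by
  have h : ((aeval z : MvPolynomial (Fin 3) k →ₐ[k] k).comp (aeval (phi P))) =
      aeval (fun j => ∑ t, P j t * z t) := by
    apply algHom_ext
    intro j
    rw [AlgHom.comp_apply, aeval_X, aeval_X, phi, map_sum]
    refine Finset.sum_congr rfl fun t _ => ?_
    rw [map_mul, aeval_X, aeval_C]
    rfl
  have h2 := DFunLike.congr_fun h G
  rw [AlgHom.comp_apply] at h2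
  rw [← coe_aeval_eq_eval, ← coe_aeval_eq_eval]
  exact h2

/-- the restriction over `L` -/
lemma aeval_up (P : Fin (n + 1) → Fin 3 → k) (G : MvPolynomial (Fin (n + 1)) k) :
    aeval (fun j => ∑ t, C (algebraMap k L (P j t)) * X t : Fin (n + 1) →
      MvPolynomial (Fin 3) L) (up L G) = up L (aeval (phi P) G) := by
  unfold up
  induction G using MvPolynomial.induction_on with
  | C a => simp only [map_C, aeval_C, algebraMap_eq]
  | add p q hp hq => simp only [map_add, hp, hq]
  | mul_X p j hp =>
    rw [map_mul, map_mul, hp, map_mul, map_mul, map_X, aeval_X, aeval_X, phi, map_sum]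
    congr 1
    refine Finset.sum_congr rfl fun t _ => ?_
    rw [map_mul, map_C, map_X]

lemma eval_up (P : Fin (n + 1) → Fin 3 → k) (x : Fin (n + 1) → L)
    (s : Fin 3 → Fin (n + 1)) (hx : ∀ j, x j = ∑ t, algebraMap k L (P j t) * x (s t))
    (G : MvPolynomial (Fin (n + 1)) k) :
    eval (x ∘ s) (up L (aeval (phi P) G)) = eval x (up L G) := by
  unfold up
  induction G using MvPolynomial.induction_on with
  | C a => simp only [map_C, aeval_C, algebraMap_eq, eval_C]
  | add p q hp hq => simp only [map_add, hp, hq]
  | mul_X p j hp =>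
    rw [map_mul, map_mul, map_mul, hp, map_mul, map_mul, map_X, aeval_X, eval_X, phi, map_sum,
      map_sum, hx j]
    congr 1
    refine Finset.sum_congr rfl fun t _ => ?_
    rw [map_mul, map_C, map_X, map_mul, eval_C, eval_X]
    rfl

lemma up_homog {d : ℕ} {m : ℕ} {G : MvPolynomial (Fin (m + 1)) k}
    (hG : G.IsHomogeneous d) : (up L G).IsHomogeneous d := hG.map _

lemma line_up (P : Fin (n + 1) → Fin 3 → k) (x : Fin (n + 1) → L)
    (s : Fin 3 → Fin (n + 1)) (hx : ∀ j, x j = ∑ t, algebraMap k L (P j t) * x (s t))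
    (h : OnLine k (x ∘ s)) : OnLine k x := by
  obtain ⟨u, v, a, b, h⟩ := h
  refine ⟨fun j => ∑ t, P j t * u t, fun j => ∑ t, P j t * v t, a, b, fun j => ?_⟩
  rw [hx j, map_sum, map_sum, Finset.mul_sum, Finset.mul_sum, ← Finset.sum_add_distrib]
  refine Finset.sum_congr rfl fun t _ => ?_
  have := h t
  rw [Function.comp_apply] at this
  rw [this, map_mul, map_mul]
  ring

lemma conic_up (P : Fin (n + 1) → Fin 3 → k) (x : Fin (n + 1) → L)
    (s : Fin 3 → Fin (n + 1)) (hx : ∀ j, x j = ∑ t, algebraMap k L (P j t) * x (s t))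
    (hP : ∀ t u, P (s t) u = if t = u then 1 else 0)
    (h : OnConic k (x ∘ s)) : OnConic k x := by
  obtain ⟨a, b, c, hli, l, p, q, h⟩ := h
  let T : (Fin 3 → k) →ₗ[k] (Fin (n + 1) → k) :=
    LinearMap.pi fun j => ∑ t, P j t • LinearMap.proj t
  have hT : ∀ z j, T z j = ∑ t, P j t * z t := by
    intro z j
    simp only [T, LinearMap.pi_apply, LinearMap.sum_apply, LinearMap.smul_apply,
      LinearMap.proj_apply, smul_eq_mul]
  have hker : LinearMap.ker T = ⊥ := by
    rw [LinearMap.ker_eq_bot']
    intro z hz
    funext t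
    have h1 := congrFun hz (s t)
    rw [hT] at h1
    simp only [hP, ite_mul, one_mul, zero_mul, Finset.sum_ite_eq, Finset.mem_univ, if_true] at h1
    exact h1
  refine ⟨T a, T b, T c, ?_, l, p, q, fun j => ?_⟩
  · have h2 := hli.map' T hker
    have h3 : T ∘ ![a, b, c] = ![T a, T b, T c] := by
      funext i
      fin_cases i <;> rfl
    rw [h3] at h2
    exact h2
  · rw [hT, hT, hT, hx j, map_sum, map_sum, map_sum, Finset.mul_sum, Finset.mul_sum,
      Finset.mul_sum, ← Finset.sum_add_distrib, ← Finset.sum_add_distrib, Finset.mul_sum]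
    refine Finset.sum_congr rfl fun t _ => ?_
    have := h t
    rw [Function.comp_apply] at this
    rw [this, map_mul, map_mul, map_mul]
    ring

/-- the vector `e_a - h_a v` of the hyperplane -/
def wv (h v : Fin (n + 1) → k) (a i : Fin (n + 1)) : k :=
  (if i = a then 1 else 0) - h a * v i

lemma sum_wv {K : Type} [Field K] [Algebra k K] (h v : Fin (n + 1) → k) (a : Fin (n + 1))
    (u : Fin (n + 1) → K) :
    ∑ c, u c * algebraMap k K (wv h v a c)
      = u a - algebraMap k K (h a) * ∑ c, u c * algebraMap k K (v c) := by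
  have h1 : ∀ c, u c * algebraMap k K (wv h v a c)
      = (if c = a then u c else 0) - algebraMap k K (h a) * (u c * algebraMap k K (v c)) := by
    intro c
    unfold wv
    rw [map_sub, map_mul]
    split_ifs
    · rw [map_one]
      ring
    · rw [map_zero]
      ring
  rw [Finset.sum_congr rfl (fun c _ => h1 c), Finset.sum_sub_distrib, ← Finset.mul_sum,
    Finset.sum_ite_eq' Finset.univ a]
  simp

lemma up_dir (w : Fin (n + 1) → k) (G : MvPolynomial (Fin (n + 1)) k) :
    up L (dir w G) = dir (fun i => algebraMap k L (w i)) (up L G) := by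
  unfold up dir
  rw [map_sum]
  refine Finset.sum_congr rfl fun i _ => ?_
  rw [map_mul, map_C, pderiv_map]

lemma dir_homog {d : ℕ} {G : MvPolynomial (Fin (n + 1)) k} (hG : G.IsHomogeneous (d + 1))
    (w : Fin (n + 1) → k) : (dir w G).IsHomogeneous d := by
  unfold dir
  refine IsHomogeneous.sum _ _ _ fun i _ => ?_
  have h1 : (pderiv i G).IsHomogeneous d := by
    have h2 := hG.pderiv (i := i)
    exact h2
  have h3 := (isHomogeneous_C (Fin (n + 1)) (w i)).mul h1
  rw [zero_add] at h3
  exact h3

lemma eval_dir (z w : Fin (n + 1) → k) (G : MvPolynomial (Fin (n + 1)) k) :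
    eval z (dir w G) = ∑ i, w i * eval z (pderiv i G) := by
  simp only [dir, map_sum, map_mul, eval_C]

/-- a linear form is `∑ h_a X_a` -/
lemma lin_form {H : MvPolynomial (Fin (n + 1)) k} (hH : H.IsHomogeneous 1) :
    ∃ h : Fin (n + 1) → k, H = ∑ a, C (h a) * X a := by
  have h1 : ∀ a, ∃ c : k, pderiv a H = C c := by
    intro a
    have h2 : (pderiv a H).IsHomogeneous 0 := by
      have h3 := hH.pderiv (i := a)
      exact h3
    have h4 : (pderiv a H).totalDegree = 0 :=
      (totalDegree_zero_iff_isHomogeneous (p := pderiv a H)).2 h2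
    exact ⟨_, totalDegree_eq_zero_iff_eq_C.mp h4⟩
  choose h hh using h1
  refine ⟨h, ?_⟩
  have h5 := hH.sum_X_mul_pderiv
  rw [one_smul] at h5
  rw [← h5]
  refine Finset.sum_congr rfl fun a _ => ?_
  rw [hh a, mul_comm]

/-- the restriction of functionals to the hyperplane keeps the independence -/
lemma indep_res (h v : Fin (n + 1) → k) (u : Fin 3 → Fin (n + 1) → L) (x : Fin (n + 1) → L)
    (hu : LinearIndependent L u) (hux : ∀ i, ∑ a, u i a * x a = 0)
    (hHx : ∑ a, algebraMap k L (h a) * x a ≠ 0) :
    LinearIndependent L fun (i : Fin 3) (a : Fin (n + 1)) =>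
      ∑ c, u i c * algebraMap k L (wv h v a c) := by
  rw [Fintype.linearIndependent_iff] at hu ⊢
  intro g hg
  apply hu g
  set U : Fin (n + 1) → L := ∑ i, g i • u i with hU
  have hUa : ∀ a, U a = ∑ i, g i * u i a := by
    intro a
    rw [hU, Finset.sum_apply]
    rfl
  have h1 : ∀ a, U a = algebraMap k L (h a) * ∑ c, U c * algebraMap k L (v c) := by
    intro a
    have h2 := congrFun hg a
    rw [Finset.sum_apply] at h2
    simp only [Pi.smul_apply, smul_eq_mul, Pi.zero_apply] at h2
    have h3 : ∑ c, U c * algebraMap k L (wv h v a c) = 0 := by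
      rw [← h2]
      simp only [hUa, Finset.sum_mul, Finset.mul_sum]
      rw [Finset.sum_comm]
      refine Finset.sum_congr rfl fun i _ => Finset.sum_congr rfl fun c _ => ?_
      ring
    rw [sum_wv] at h3
    exact sub_eq_zero.mp h3
  have h4 : ∑ a, U a * x a = 0 := by
    simp only [hUa, Finset.sum_mul]
    rw [Finset.sum_comm]
    refine Finset.sum_eq_zero fun i _ => ?_
    have h5 : ∑ a, g i * u i a * x a = g i * ∑ a, u i a * x a := by
      rw [Finset.mul_sum]
      refine Finset.sum_congr rfl fun a _ => ?_
      ring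
    rw [h5, hux i, mul_zero]
  have h6 : (∑ c, U c * algebraMap k L (v c)) = 0 := by
    have h7 : ∑ a, U a * x a
        = (∑ c, U c * algebraMap k L (v c)) * ∑ a, algebraMap k L (h a) * x a := by
      rw [Finset.mul_sum]
      refine Finset.sum_congr rfl fun a _ => ?_
      calc U a * x a = algebraMap k L (h a) * (∑ c, U c * algebraMap k L (v c)) * x a := by
            rw [← h1 a]
        _ = _ := by ring
    rw [h4] at h7
    rcases mul_eq_zero.mp h7.symm with h8 | h8
    · exact h8
    · exact absurd h8 hHx
  funext a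
  rw [h1 a, h6, mul_zero]
  rfl

/-- ALH -/
theorem pf_ALH (hPLN : T_PLN) (hRES : T_RES) (hTER : T_TERH) : T_ALH := by
  intro k L _ _ _ _ _ n e he F H hF hH hT x y ν hFH hx hHx κ hκ hne
  obtain ⟨e, rfl⟩ : ∃ e', e = e' + 1 := ⟨e - 1, by omega⟩
  have : Infinite k := IsAlgClosed.instInfinite
  have : CharZero L := charZero_of_injective_algebraMap (algebraMap k L).injective
  rcases hPLN k L n (e + 1) x y κ hκ hne with h | ⟨s, P, hinj, hP, ⟨Q0, hQ0⟩, hxP, hfn⟩
  · exact Or.inl h
  obtain ⟨y', hy'⟩ := hRES k L n (e + 1) y s P hinj hP hfn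
  -- the value of the functionals on multiples of forms over `k`
  have hphi : ∀ t, phi P (s t) = X t := by
    intro t
    simp only [phi, hP]
    rw [Finset.sum_eq_single t (by
      intro u _ hu
      rw [if_neg (Ne.symm hu), map_zero, zero_mul]) (by simp)]
    rw [if_pos rfl, map_one, one_mul]
  have hval : ∀ (b : Fin 2) (t : Fin 3) (G : MvPolynomial (Fin (n + 1)) k),
      G.IsHomogeneous (e + 1) →
      fnl (y' b) (X t * up L (aeval (phi P) G)) = fnl (y b) (X (s t) * up L G) := by
    intro b t G hG
    have h1 : (X (s t) * G : MvPolynomial (Fin (n + 1)) k).IsHomogeneous (e + 1 + 1) := by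
      have := (isHomogeneous_X k (s t)).mul hG
      rwa [add_comm 1 (e + 1)] at this
    have h2 := hy' b (up L (X (s t) * G)) (up_homog h1)
    rw [aeval_up, map_mul, aeval_X, hphi t] at h2
    have h3 : ∀ {m : ℕ} (i : Fin (m + 1)) (G' : MvPolynomial (Fin (m + 1)) k),
        up L (X i * G') = X i * up L G' := by
      intro m i G'
      unfold up
      rw [map_mul, map_X]
    rw [h3, h3] at h2
    exact h2.symm
  -- the hyperplane
  obtain ⟨h, hh⟩ := lin_form hH
  have hHk : ∀ w : Fin (n + 1) → k, eval w H = ∑ a, h a * w a := by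
    intro w
    rw [hh]
    simp only [map_sum, map_mul, eval_C, eval_X]
  have hHL : ∀ w : Fin (n + 1) → L, eval w (up L H) = ∑ a, algebraMap k L (h a) * w a := by
    intro w
    rw [hh]
    unfold up
    simp only [map_sum, map_mul, map_C, map_X, eval_C, eval_X]
  have hHx' : ∑ a, algebraMap k L (h a) * x a ≠ 0 := by
    rw [← hHL]
    exact hHx
  obtain ⟨v, hv⟩ : ∃ v : Fin (n + 1) → k, ∑ a, h a * v a = 1 := by
    obtain ⟨a, ha⟩ : ∃ a, h a ≠ 0 := by
      by_contra hno
      push Not at hno
      apply hHx'
      refine Finset.sum_eq_zero fun a _ => ?_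
      rw [hno a, map_zero, zero_mul]
    refine ⟨fun i => if i = a then (h a)⁻¹ else 0, ?_⟩
    simp only [mul_ite, mul_zero, Finset.sum_ite_eq', Finset.mem_univ, if_true]
    exact mul_inv_cancel₀ ha
  have hwH : ∀ a, ∑ c, h c * wv h v a c = 0 := by
    intro a
    have h1 := sum_wv (K := k) h v a h
    simp only [Algebra.algebraMap_self, RingHom.id_apply] at h1
    rw [h1, hv, mul_one, sub_self]
  have hwHL : ∀ a, eval (fun c => algebraMap k L (wv h v a c)) (up L H) = 0 := by
    intro a
    rw [hHL]
    have h1 := congrArg (algebraMap k L) (hwH a)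
    rw [map_sum, map_zero] at h1
    simpa only [map_mul] using h1
  have hpd : ∀ a, pderiv a (up L F) = up L (pderiv a F) := by
    intro a
    exact pderiv_map
  have hG : ∀ a, (dir (wv h v a) F).IsHomogeneous (e + 1) := fun a => dir_homog hF _
  have hgx : ∀ a, eval (x ∘ s) (up L (aeval (phi P) (dir (wv h v a) F)))
      = ∑ c, eval x (pderiv c (up L F)) * algebraMap k L (wv h v a c) := by
    intro a
    rw [eval_up P x s hxP, up_dir, eval_dir]
    refine Finset.sum_congr rfl fun c _ => mul_comm _ _
  have key := hTER k L e (n + 1) (by omega) (fun a => aeval (phi P) (dir (wv h v a) F))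
    (aeval (phi P) F)
    (fun a => aeval_phi_homog P (hG a)) (aeval_phi_homog P hF) (by
      intro z hz hfz
      rw [eval_aeval_phi] at hfz
      obtain ⟨w, hw, hwF⟩ := hT (fun j => ∑ t, P j t * z t) (by
        intro h0
        apply hz
        funext t
        have h1 := congrFun h0 (s t)
        simp only [hP, ite_mul, one_mul, zero_mul, Finset.sum_ite_eq, Finset.mem_univ,
          if_true] at h1
        exact h1) hfz
      by_contra hno
      push Not at hno
      apply hwF
      rw [hHk] at hw
      have h2 : ∀ a, eval (fun j => ∑ t, P j t * z t) (pderiv a F)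
          = h a * ∑ c, eval (fun j => ∑ t, P j t * z t) (pderiv c F) * v c := by
        intro a
        have h3 := hno a
        rw [eval_aeval_phi, eval_dir] at h3
        have h4 := sum_wv (K := k) h v a
          (fun c => eval (fun j => ∑ t, P j t * z t) (pderiv c F))
        simp only [Algebra.algebraMap_self, RingHom.id_apply] at h4
        have h5 : ∑ c, eval (fun j => ∑ t, P j t * z t) (pderiv c F) * wv h v a c = 0 := by
          rw [← h3]
          exact Finset.sum_congr rfl fun c _ => mul_comm _ _
        rw [h5] at h4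
        exact (sub_eq_zero.mp h4.symm)
      rw [eval_dir]
      have h6 : ∀ a, w a * eval (fun j => ∑ t, P j t * z t) (pderiv a F)
          = (h a * w a) * ∑ c, eval (fun j => ∑ t, P j t * z t) (pderiv c F) * v c := by
        intro a
        rw [h2 a]
        ring
      rw [Finset.sum_congr rfl (fun a _ => h6 a), ← Finset.sum_mul, hw, zero_mul])
    (x ∘ s) y' (fun b a => ∑ c, ν b c * algebraMap k L (wv h v a c)) (by
      have h1 := indep_res h v ![ν 0, ν 1, fun a => eval x (pderiv a (up L F))] x hFH.ind (by
        intro i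
        fin_cases i
        · exact hFH.orth 0
        · exact hFH.orth 1
        · have h2 := congrArg (eval x) (up_homog (L := L) hF).sum_X_mul_pderiv
          rw [map_sum, map_nsmul, hx, smul_zero] at h2
          simp only [map_mul, eval_X] at h2
          change ∑ a, eval x (pderiv a (up L F)) * x a = 0
          rw [← h2]
          exact Finset.sum_congr rfl fun c _ => mul_comm _ _) hHx'
      have h3 : (fun (i : Fin 3) (a : Fin (n + 1)) =>
          ∑ c, (![ν 0, ν 1, fun a => eval x (pderiv a (up L F))] : Fin 3 → Fin (n + 1) → L) i c *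
            algebraMap k L (wv h v a c)) =
          ![fun a => ∑ c, ν 0 c * algebraMap k L (wv h v a c),
            fun a => ∑ c, ν 1 c * algebraMap k L (wv h v a c),
            fun a => eval (x ∘ s) (up L (aeval (phi P) (dir (wv h v a) F)))] := by
        funext i
        fin_cases i
        · rfl
        · rfl
        · funext a
          exact (hgx a).symm
      rw [h3] at h1
      exact h1) (by
      intro b j a
      rw [hval b j _ (hG a), up_dir]
      exact hFH.grad b (s j) (fun c => algebraMap k L (wv h v a c)) (hwHL a)) (by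
      intro b
      have h1 := hy' b (up L F) (up_homog hF)
      rw [aeval_up] at h1
      rw [← h1]
      exact hFH.mul b) (by
      rw [eval_up P x s hxP]
      exact hx) κ (by
      intro Q'
      obtain ⟨r, hr⟩ := hκ (fun M => coeff (fs M.1) (rename s (frm Q'))) s
      refine ⟨r, ?_⟩
      rw [← hr, frm_coeff ((frm_homog Q').rename_isHomogeneous)]
      have h1 : aeval (phi P) (rename s (frm Q')) = frm Q' := by
        rw [aeval_rename]
        have : (phi P ∘ s) = X := by
          funext t
          exact hphi t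
        rw [this, aeval_X_left_apply]
      have h2 : ∀ b t, fnl (y' b) (X t * up L (frm Q')) =
          fnl (y b) (X (s t) * up L (rename s (frm Q'))) := by
        intro b t
        rw [← hval b t _ ((frm_homog Q').rename_isHomogeneous), h1]
      unfold det3
      simp only [id, h2, Function.comp_apply]) (by
      have hh := aeval_phi_homog P (frm_homog Q0)
      refine ⟨fun M => coeff (fs M.1) (aeval (phi P) (frm Q0)), ?_⟩
      rw [frm_coeff hh]
      have h2 : ∀ b t, fnl (y' b) (X t * up L (aeval (phi P) (frm Q0))) =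
          fnl (y b) (X (s t) * up L (frm Q0)) := fun b t => hval b t _ (frm_homog Q0)
      have h3 : det3 (x ∘ s) y' (up L (aeval (phi P) (frm Q0))) id =
          det3 x y (up L (frm Q0)) s := by
        unfold det3
        simp only [id, h2, Function.comp_apply]
      rw [h3]
      exact hQ0)
  rcases key with h | h
  · exact Or.inl (line_up P x s hxP h)
  · exact Or.inr (conic_up P x s hxP hP h)

end Pool.Agent.H19.AH.ALH
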