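import Pool.Agent.H17.AH.TargetsC

/-!
# MP_70ba79_ag: board ahy_modules, NCT

A form `F i₁` and a linear form `F i₀` with normal crossings: at every zero `z ≠ 0` of `F i₁`
there is a vector `w` of the hyperplane `F i₀ = 0` with `∂_w F i₁ (z) ≠ 0`.
-/

set_option autoImplicit false

namespace Pool.Agent.H19.AH.NCT

open MvPolynomial SC Pool.Agent.H27.LV Pool.Agent.H17.VG
open Pool.Agent.H30.VM Pool.Agent.H17.BO Pool.Agent.H17.AH
open Pool.Agent.H17.CI (Tup IlT PQT TxT frmT upT RatT)

/-- the partial derivatives of a linear form are constants -/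
theorem pderiv_lin {k : Type} [Field k] {n : ℕ} {H : MvPolynomial (Fin (n + 1)) k}
    (hH : H.IsHomogeneous 1) (a : Fin (n + 1)) : ∃ c : k, pderiv a H = C c := by
  have h1 : (pderiv a H).IsHomogeneous 0 := by
    have h2 := hH.pderiv (i := a)
    exact h2
  have h3 : (pderiv a H).totalDegree = 0 := (totalDegree_zero_iff_isHomogeneous (p := pderiv a H)).2 h1
  exact ⟨_, totalDegree_eq_zero_iff_eq_C.mp h3⟩

theorem sum_two {k : Type} [Field k] {m : ℕ} (c d : k) (a b : Fin m) (g : Fin m → k) :
    ∑ i, (c * (if i = a then 1 else 0) - d * (if i = b then 1 else 0)) * g i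
      = c * g a - d * g b := by
  simp [sub_mul, Finset.sum_sub_distrib]

theorem pf_NCT : T_NCT := by
  intro k _ _ n ι i₀ i₁ e F hne he hF hN z hz hFz
  have hH : (F i₀).IsHomogeneous 1 := by
    have h1 := hF i₀
    rw [he] at h1
    exact h1
  choose h hh using fun a => pderiv_lin hH a
  have hev : ∀ w : Fin (n + 1) → k, eval w (F i₀) = ∑ a, w a * h a := by
    intro w
    have h1 := hH.sum_X_mul_pderiv
    have h2 := congrArg (eval w) h1
    rw [map_sum] at h2
    simp only [map_mul, eval_X, hh, eval_C, one_smul] at h2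
    exact h2.symm
  have heul : ∑ a, z a * eval z (pderiv a (F i₁)) = 0 := by
    have h1 := (hF i₁).sum_X_mul_pderiv
    have h2 := congrArg (eval z) h1
    rw [map_sum] at h2
    simp only [map_mul, eval_X, map_nsmul, hFz, smul_zero] at h2
    exact h2
  by_contra hcon
  push Not at hcon
  have hdir : ∀ w : Fin (n + 1) → k, eval z (dir w (F i₁))
      = ∑ a, w a * eval z (pderiv a (F i₁)) := by
    intro w
    simp only [dir, map_sum, map_mul, eval_C]
  have hrel : ∀ a b, h b * eval z (pderiv a (F i₁)) = h a * eval z (pderiv b (F i₁)) := by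
    intro a b
    have h1 := hcon (fun i => h b * (if i = a then 1 else 0) - h a * (if i = b then 1 else 0))
      (by
        rw [hev, sum_two]
        ring)
    rw [hdir, sum_two] at h1
    exact sub_eq_zero.mp h1
  have hg : ∃ b, eval z (pderiv b (F i₁)) ≠ 0 := by
    have h1 := hN z hz {i₁} (by
      intro i hi
      rw [Finset.mem_singleton.mp hi]
      exact hFz)
    have h2 := h1.ne_zero ⟨i₁, Finset.mem_singleton_self i₁⟩
    by_contra hno
    push Not at hno
    exact h2 (funext hno)
  obtain ⟨b, hb⟩ := hg
  have hHz : eval z (F i₀) = 0 := by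
    have h1 : eval z (F i₀) * eval z (pderiv b (F i₁)) = 0 := by
      rw [hev, Finset.sum_mul]
      calc ∑ a, z a * h a * eval z (pderiv b (F i₁))
          = ∑ a, h b * (z a * eval z (pderiv a (F i₁))) := by
            apply Finset.sum_congr rfl
            intro a _
            have h2 := hrel a b
            calc z a * h a * eval z (pderiv b (F i₁))
                = z a * (h a * eval z (pderiv b (F i₁))) := by ring
              _ = z a * (h b * eval z (pderiv a (F i₁))) := by rw [h2]
              _ = h b * (z a * eval z (pderiv a (F i₁))) := by ring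
        _ = 0 := by rw [← Finset.mul_sum, heul, mul_zero]
    rcases mul_eq_zero.mp h1 with h2 | h2
    · exact h2
    · exact absurd h2 hb
  classical
  have h1 := hN z hz {i₀, i₁} (by
    intro i hi
    rcases Finset.mem_insert.mp hi with h2 | h2
    · rw [h2]
      exact hHz
    · rw [Finset.mem_singleton.mp h2]
      exact hFz)
  have hm0 : i₀ ∈ ({i₀, i₁} : Finset ι) := Finset.mem_insert_self _ _
  have hm1 : i₁ ∈ ({i₀, i₁} : Finset ι) :=
    Finset.mem_insert_of_mem (Finset.mem_singleton_self _)
  have hinj : Function.Injective (![⟨i₀, hm0⟩, ⟨i₁, hm1⟩] : Fin 2 → ({i₀, i₁} : Finset ι)) := by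
    intro s t hst
    fin_cases s <;> fin_cases t
    · rfl
    · exact absurd (congrArg Subtype.val hst) hne
    · exact absurd (congrArg Subtype.val hst).symm hne
    · rfl
  have h2 := h1.comp _ hinj
  have h3 : (fun i : ({i₀, i₁} : Finset ι) => fun a : Fin (n + 1) => eval z (pderiv a (F i))) ∘
      (![⟨i₀, hm0⟩, ⟨i₁, hm1⟩] : Fin 2 → ({i₀, i₁} : Finset ι))
      = ![h, fun a => eval z (pderiv a (F i₁))] := by
    funext s
    fin_cases s
    · funext a
      change eval z (pderiv a (F i₀)) = h a
      rw [hh, eval_C]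
    · rfl
  rw [h3, LinearIndependent.pair_iff] at h2
  have h4 := h2 (eval z (pderiv b (F i₁))) (-(h b)) (by
    funext a
    simp only [Pi.add_apply, Pi.smul_apply, smul_eq_mul, Pi.zero_apply]
    have h5 := hrel a b
    linear_combination -h5)
  exact hb h4.1

end Pool.Agent.H19.AH.NCT
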